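import Pool.Agent.H76.MU.WordsFin

/-!
# Products of consecutive Liouville values of all lengths, and all words, against one more sign

Let `P_r(n) = λ(n) λ(n+1) ⋯ λ(n+r-1)`. For almost all vectors `b ∈ [1, X] ^ (k+1)`, up to
a power of the logarithm, the products of `P_m(n)` with the `k + 1` blocks `P_{r_i}(a_i n + b_i)` are orthogonal to all
additive characters as soon as one of the `r_i` is `1`, simultaneously for ALL lengths `m`, `r_i` and coefficients `a_i`
up to a power of the logarithm, with an arbitrary weight given in advance. Moreover the sign `λ(a_0 n + b_0)` is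
independent of ALL functions of the `k + 1` words of length `C log log X` which begin at `n` and at the other
`a_i n + b_i`, also on the numbers `n = m - s - t`, `s ∈ S`, `t ∈ T`, for EVERY `m` and ALL sets `S`, `T`.
-/

set_option autoImplicit false

open Finset

namespace Pool.Agent.Results.MP_4fffd4_nt.BlocksAndWords

/-- The Liouville function `λ(n) = (-1) ^ Ω(n)`. -/
def lam (n : ℕ) : ℤ := (-1) ^ ArithmeticFunction.cardFactors n

/-- The product `λ(n) λ(n+1) ⋯ λ(n+r-1)` of `r` consecutive values. -/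
def block (r n : ℕ) : ℤ := ∏ j ∈ range r, lam (n + j)

/-- The pairs `(s, t)` with `s ∈ S`, `t ∈ T` and `1 ≤ m - s - t ≤ X`. -/
def pairs (X m : ℕ) (S T : Finset ℕ) : Finset (ℕ × ℕ) :=
  (S ×ˢ T).filter (fun t => t.1 + t.2 < m ∧ m ≤ X + t.1 + t.2)

/-- Let `k`, `A`, `K` be fixed, let `X` be large and let `v` be any function with `|v(n)| ≤ (log X) ^ K`. For all
`b ∈ [1, X] ^ (k+1)` outside a set `B` of at most `X ^ (k+1) / (log X) ^ A` vectors and all coefficients
`1 ≤ a i ≤ (log X) ^ K`: (1) for all `m` and `r i` at most `(log X) ^ K`, with some `r i = 1`, every `x ≤ X` and every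
real `α` the sum of `v(n) P_m(n) (∏ i, P_{r i}(a i * n + b i)) e(α n)` over `n ≤ x` is at most `X / (log X) ^ A`;
(2) for all `L` with `2 ^ L ≤ (log X) ^ K` and all complex functions `Φ`, bounded by `1`, of `k + 1` words of `L` signs,
the sum of `v(n) Φ(words) λ(a 0 * n + b 0) e(α n)` over `n ≤ x` is at most `X / (log X) ^ A`, where the words begin at
`n` and at `a i * n + b i`, `1 ≤ i ≤ k`; (3) for the same `L` and `Φ`, for every `m`, all sets `S`, `T` in `[1, X]` and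
both signs `ε`, twice the sum of `v(n) Φ(words)` over the pairs with `n = m - s - t ∈ [1, X]` and
`λ(a 0 * n + b 0) = ε` is the sum over all the pairs with `n = m - s - t ∈ [1, X]`, up to `X ^ 2 / (log X) ^ A`. -/
theorem result : ∀ k A K : ℕ, ∃ X₀ : ℕ, ∀ X : ℕ, X₀ ≤ X →
    ∀ v : ℕ → ℂ, (∀ n ∈ Icc 1 X, ‖v n‖ ≤ Real.log X ^ K) →
    ∃ B ⊆ Fintype.piFinset (fun _ : Fin (k + 1) => Icc 1 X), (B.card : ℝ) ≤ (X : ℝ) ^ (k + 1) / Real.log X ^ A ∧
      ∀ b ∈ Fintype.piFinset (fun _ : Fin (k + 1) => Icc 1 X), b ∉ B →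
      ∀ a : Fin (k + 1) → ℕ, (∀ i, 1 ≤ a i ∧ (a i : ℝ) ≤ Real.log X ^ K) →
        (∀ (m : ℕ) (r : Fin (k + 1) → ℕ), (m : ℝ) ≤ Real.log X ^ K → (∀ i, (r i : ℝ) ≤ Real.log X ^ K) →
          (∃ i, r i = 1) → ∀ x ≤ X, ∀ α : ℝ,
          ‖∑ n ∈ Icc 1 x, v n * (block m n : ℂ) * (∏ i, (block (r i) (a i * n + b i) : ℂ)) *
            Complex.exp (2 * Real.pi * Complex.I * (α * n))‖ ≤ X / Real.log X ^ A) ∧
        (∀ L : ℕ, (2 : ℝ) ^ L ≤ Real.log X ^ K →
          ∀ Φ : (Fin L → ℤ) → (Fin k → Fin L → ℤ) → ℂ, (∀ y z, ‖Φ y z‖ ≤ 1) →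
          (∀ x ≤ X, ∀ α : ℝ,
            ‖∑ n ∈ Icc 1 x, v n * Φ (fun j => lam (n + j)) (fun i j => lam (a i.succ * n + b i.succ + j)) *
              (lam (a 0 * n + b 0) : ℂ) * Complex.exp (2 * Real.pi * Complex.I * (α * n))‖ ≤ X / Real.log X ^ A) ∧
          (∀ (m : ℕ) (S T : Finset ℕ), S ⊆ Icc 1 X → T ⊆ Icc 1 X → ∀ ε : ℤ, (ε = 1 ∨ ε = -1) →
            ‖2 * ∑ t ∈ (pairs X m S T).filter (fun t => lam (a 0 * (m - t.1 - t.2) + b 0) = ε),
                v (m - t.1 - t.2) * Φ (fun j => lam ((m - t.1 - t.2) + j))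
                  (fun i j => lam (a i.succ * (m - t.1 - t.2) + b i.succ + j)) -
              ∑ t ∈ pairs X m S T, v (m - t.1 - t.2) * Φ (fun j => lam ((m - t.1 - t.2) + j))
                  (fun i j => lam (a i.succ * (m - t.1 - t.2) + b i.succ + j))‖ ≤ (X : ℝ) ^ 2 / Real.log X ^ A)) := by
  intro k A K
  obtain ⟨X₀, h0⟩ := Pool.Agent.H76.MU.words k A K
  refine ⟨X₀, fun X hX v hv => ?_⟩
  obtain ⟨B, hB1, hB2, hB3⟩ := h0 X hX v hv
  refine ⟨B, hB1, hB2, fun b hb hbB a ha => ?_⟩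
  obtain ⟨h1, h2⟩ := hB3 b hb hbB a ha
  have hee : ∀ (n : ℕ) (α : ℝ), Complex.exp (2 * Real.pi * Complex.I * (α * n)) =
      Pool.Agent.H807R2.Dav.ee ((n : ℝ) * α) := by
    intro n α
    unfold Pool.Agent.H807R2.Dav.ee
    congr 1
    push_cast
    ring
  refine ⟨fun m r hm hr hr1 x hx α => ?_, fun L hL Φ hΦ => ⟨fun x hx α => ?_, ?_⟩⟩
  · simp only [hee]
    exact h1 m r hm hr hr1 x hx α
  · simp only [hee]
    exact (h2 L hL Φ hΦ).1 x hx α
  · exact (h2 L hL Φ hΦ).2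

end Pool.Agent.Results.MP_4fffd4_nt.BlocksAndWords
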