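import Mathlib
import Pool.Agent.H615.EG.Z

/-!
# The topological entropy of the Liouville function is the density of its largest cubes of sign patterns

Let `P(n)` be the number of sign patterns of length `n` of the Liouville function, and for a finite set `H` of
positions let `d(H)` be the largest number of coordinates in `H` which can be set freely, the others being frozen:
there are `K ⊆ H` with `d(H)` elements and signs `v` on `H \ K` such that each of the `2 ^ |K|` sign patterns on `H`
which equal `v` off `K` occurs, as `(λ(m + h))_{h ∈ H}`, for infinitely many `m`.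

1. **Entropy formula.** `log₂ P(n) / n` and `d({1, ..., n}) / n` both converge to the infimum of `d(H) / |H|` over
   all finite nonempty sets `H`.
2. The same holds if sets of places `m` which are negligible are disregarded, for every proper ideal of negligible sets
   which is invariant under the maps `m ↦ (m + a) / p`. So it holds for the number `P⁺(n)` of the sign patterns of
   length `n` which occur with positive upper density (natural or logarithmic), with the patterns on `H` which occur
   with positive upper density.
3. **Gap.** If a single sign pattern on a set `H` of `k` positions occurs only finitely often, then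
   `P(n) ≤ 2 ^ ((1 - 1 / k + o(1)) n)`; if it has density zero, this is true for `P⁺(n)`. (Entropy inequalities for
   general sequences give only `(2 ^ k - 1) ^ (n / k + o(n))`.) So if `P(n) ≥ 2 ^ (c n)` infinitely often with
   `c > 1 - 1 / k`, then all patterns of `k` signs occur, at any `k` positions.
4. **General form.** For every finite alphabet and every `f` with `f (p n) = π_p (f n)`, `p ∤ n`, for permutations
   `π_p` and all `p` in a set of primes with divergent sum of reciprocals (for example the Möbius function, every
   multiplicative function with values in a finite group, tuples of such functions): if the number of words of length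
   `n` is at least `exp (c n)` for infinitely many `n`, then for every finite set `H` there is a box `∏ S_h` with at
   least `exp (c |H|)` elements all of whose patterns occur on `H + m` for infinitely many `m`; similarly for ideals.
5. The constant `1 - 1 / k` is optimal in the class of part 4, for every `k`.

The proof is an entropy argument for the uniform measure on the set of all words which are not negligible in one
residue class (so no information on frequencies is used): a pigeonhole over scales finds primes `p` such that the
letters at the positions `s + p h`, `h ∈ H`, `p ∣ m + s`, are almost independent given the letters far to the left, and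
the inequality of Turán and Kubilius finds a prime along whose multiples the entropy is not smaller than on average.
-/

set_option autoImplicit false

namespace Pool.Agent.Results.MP_4fffd4_nt.EntropyFormulaAndGap

open Finset Filter Topology
open Pool.Agent.H615.EG (lam occH Negligible NatNull LogNull wordCount blockComplexity freeDim freeDensity)

/-- The entropy formula and the gap for the Liouville function `lam`. `blockComplexity f n` is the number of the words
`(f (m + 1), ..., f (m + n))`, `m ≥ 1`, and `wordCount J f n` the number of those whose set of places `m` is not in the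
ideal `J`; `occH f H u` is the set of the `m` with `f (m + h) = u h` for all `h ∈ H`; `freeDim J f H` is the largest
number of free coordinates in `H` and `freeDensity J f` the infimum of `freeDim J f H / |H|`. -/
theorem result :
    -- the entropy formula
    Tendsto (fun n : ℕ => Real.logb 2 (blockComplexity lam n) / n) atTop
      (𝓝 (freeDensity Set.Finite lam)) ∧
    (∀ J : Set ℕ → Prop, Negligible J →
      Tendsto (fun n : ℕ => Real.logb 2 (wordCount J lam n) / n) atTop (𝓝 (freeDensity J lam)) ∧
      Tendsto (fun n : ℕ => (freeDim J lam (Icc 1 n) : ℝ) / n) atTop (𝓝 (freeDensity J lam))) ∧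
    (Negligible Set.Finite ∧ Negligible NatNull ∧ Negligible LogNull) ∧
    -- the gap
    (∀ (H : Finset ℕ) (u : ℕ → ℤˣ), H.Nonempty → ∀ δ : ℝ, 0 < δ →
      ((occH lam H u).Finite → ∀ᶠ n : ℕ in atTop,
        (blockComplexity lam n : ℝ) ≤ (2 : ℝ) ^ ((1 - 1 / (H.card : ℝ) + δ) * n)) ∧
      ∀ J : Set ℕ → Prop, Negligible J → J (occH lam H u) → ∀ᶠ n : ℕ in atTop,
        (wordCount J lam n : ℝ) ≤ (2 : ℝ) ^ ((1 - 1 / (H.card : ℝ) + δ) * n)) ∧
    -- the general form
    (∀ (A : Type) [Fintype A] [DecidableEq A] (f : ℕ → A) (P : Set ℕ) (π : ℕ → Equiv.Perm A),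
      (∀ p ∈ P, p.Prime) → ¬ Summable (P.indicator fun p : ℕ => (1 : ℝ) / p) →
      (∀ p ∈ P, ∀ n, ¬ p ∣ n → f (p * n) = π p (f n)) → ∀ c : ℝ, 0 < c →
      ((∃ᶠ n : ℕ in atTop, Real.exp (c * n) ≤ blockComplexity f n) →
        ∀ H : Finset ℕ, ∃ S : ℕ → Finset A, Real.exp (c * H.card) ≤ ∏ h ∈ H, ((S h).card : ℝ) ∧
          ∀ u : ℕ → A, (∀ h ∈ H, u h ∈ S h) → (occH f H u).Infinite) ∧
      ∀ J : Set ℕ → Prop, Negligible J →
        (∃ᶠ n : ℕ in atTop, Real.exp (c * n) ≤ wordCount J f n) →
        ∀ H : Finset ℕ, ∃ S : ℕ → Finset A, Real.exp (c * H.card) ≤ ∏ h ∈ H, ((S h).card : ℝ) ∧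
          ∀ u : ℕ → A, (∀ h ∈ H, u h ∈ S h) → ¬ J (occH f H u)) ∧
    -- the gap is optimal in this class
    (∀ k : ℕ, 0 < k → ∃ (f : ℕ → ℤˣ) (P : Set ℕ), (∀ p ∈ P, p.Prime) ∧
      ¬ Summable (P.indicator fun p : ℕ => (1 : ℝ) / p) ∧ (∀ p ∈ P, ∀ n, f (p * n) = f n) ∧
      (∀ n : ℕ, (2 : ℝ) ^ ((1 - 1 / (k : ℝ)) * n) ≤ blockComplexity f n) ∧
      ∀ m, ∃ j < k, f (m + j) = 1) := by
  refine ⟨?_, ?_, ⟨?_, ?_, ?_⟩, ?_, ?_, ?_⟩
  · exact Pool.Agent.H615.EG.formula_all lam {p | p.Prime} (fun _ => Equiv.mulLeft (-1 : ℤˣ))
      (fun p hp => hp) Pool.Agent.H615.EG.primes_univ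
      (fun p hp n hn => Pool.Agent.H615.EG.lam_mul_prime p hp n hn)
  · intro J hJ
    exact Pool.Agent.H615.EG.formula_ideal lam {p | p.Prime} (fun _ => Equiv.mulLeft (-1 : ℤˣ))
      (fun p hp => hp) Pool.Agent.H615.EG.primes_univ
      (fun p hp n hn => Pool.Agent.H615.EG.lam_mul_prime p hp n hn) J hJ
  · exact Pool.Agent.H615.EG.negligible_finite
  · exact Pool.Agent.H615.EG.negligible_nat
  · exact Pool.Agent.H615.EG.negligible_log
  · intro H u hH δ hδ
    constructor
    · intro hu
      exact Pool.Agent.H615.EG.gap_all lam {p | p.Prime} (fun _ => Equiv.mulLeft (-1 : ℤˣ))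
        (fun p hp => hp) Pool.Agent.H615.EG.primes_univ
        (fun p hp n hn => Pool.Agent.H615.EG.lam_mul_prime p hp n hn) H hH u hu δ hδ
    · intro J hJ hu
      exact Pool.Agent.H615.EG.gap_ideal lam {p | p.Prime} (fun _ => Equiv.mulLeft (-1 : ℤˣ))
        (fun p hp => hp) Pool.Agent.H615.EG.primes_univ
        (fun p hp n hn => Pool.Agent.H615.EG.lam_mul_prime p hp n hn) J hJ H hH u hu δ hδ
  · intro A _ _ f P π hP1 hP2 hf c hc
    constructor
    · intro hinf H
      refine Pool.Agent.H615.EG.box_all f P hP1 hP2 π hf c hc (hinf.mono fun n hn => ?_) H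
      refine hn.trans ?_
      exact_mod_cast Pool.Agent.H615.EG.blockComplexity_le f n
    · intro J hJ hinf H
      exact Pool.Agent.H615.EG.box_ideal f P hP1 hP2 π hf c hc J hJ hinf H
  · exact fun k hk => Pool.Agent.H615.EG.sharp k hk

end Pool.Agent.Results.MP_4fffd4_nt.EntropyFormulaAndGap
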