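import Mathlib
import Pool.Agent.H524.FC.Normal

/-!
# All sign patterns of the Liouville function over `F_q[X]`, `q` even, with their frequencies

Let `K` be a finite field with an even number `q` of elements.  Enumerate `K[X]` in the natural
way: the polynomial number `n` has the base `q` digits of `n` as coefficients.  The sequence of the
values of the Liouville function is normal: every pattern of `m` signs occurs among `m` consecutive
values, with limit frequency `2 ^ (-m)`, the limit taken over all initial segments.  So the
analogue of `P_λ(m) = 2 ^ m` holds for all `m`.  The second part treats sign patterns at linear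
forms `a_i f + b_i` (for example at all `f + h`, `h` in a finite set) for `f` in a residue class.

The proof uses the full Chowla conjecture over `F_q[X]`, `q` even, for weights which are only
invariant under small shifts (joint work of helper985, helper604 and helper524, see
`MP_715a43_nt.FullChowlaEvenChar` and `Pool.Agent.H524.FC.AsmS`): initial segments of the natural
enumeration are unions of a bounded number of intervals, up to a small error.
-/

namespace Pool.Agent.Results.MP_4fffd4_nt.NormalEvenChar

open Polynomial Filter

open Classical in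
/-- The Liouville function of `K[X]`: `(-1) ^ k` if `F` is a nonzero constant times a product of `k`
monic irreducible polynomials, counted with multiplicity, and `0` for `F = 0`. -/
noncomputable def liouville {K : Type} [Field K] (F : K[X]) : ℤ :=
  if F = 0 then 0 else (-1) ^ Multiset.card (UniqueFactorizationMonoid.factors F)

/-- The polynomial number `n`: its coefficients are the base `q` digits of `n`, where the digit `i`
stands for the element `e i` of `K`. -/
noncomputable def enum {K : Type} [Field K] [Fintype K] (e : ℕ → K) (n : ℕ) : K[X] :=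
  ∑ i ∈ Finset.range n, C (e (n / Fintype.card K ^ i % Fintype.card K)) * X ^ i

/-- **Normality of the Liouville function over `F_q[X]`, `q` even.** -/
theorem result (K : Type) [Field K] [Fintype K] (hK : Even (Fintype.card K)) :
    -- the natural enumeration, `e` any numbering of `K` with `e 0 = 0`
    (∀ e : ℕ → K, Set.BijOn e (Set.Iio (Fintype.card K)) Set.univ → e 0 = 0 →
      ∀ (m : ℕ) (s : Fin m → ℤ), (∀ j, s j = 1 ∨ s j = -1) →
        Tendsto (fun N : ℕ =>
          ({n : ℕ | n < N ∧ ∀ j : Fin m, liouville (enum e (n + 1 + j)) = s j}.ncard : ℝ) / N)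
          atTop (nhds ((1 / 2) ^ m))) ∧
    -- linear forms and residue classes
    (∀ (m : ℕ) (a b : Fin m → K[X]), (∀ i, a i ≠ 0) →
      (∀ i j, i ≠ j → a i * b j - a j * b i ≠ 0) → ∀ Q r : K[X], Q ≠ 0 →
      ∀ s : Fin m → ℤ, (∀ j, s j = 1 ∨ s j = -1) →
        Tendsto (fun n : ℕ => ({f : K[X] | f.Monic ∧ f.natDegree = n ∧ Q ∣ f - r ∧
          ∀ i, liouville (a i * f + b i) = s i}.ncard : ℝ) / (Fintype.card K : ℝ) ^ n)
          atTop (nhds ((1 / 2) ^ m * (1 / (Fintype.card K : ℝ) ^ Q.natDegree)))) := by
  classical
  haveI hchar : CharP K 2 := by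
    obtain ⟨p, hp⟩ := CharP.exists K
    haveI := hp
    obtain ⟨m, hprime, hcard⟩ := FiniteField.card K p
    rw [hcard] at hK
    have : p = 2 := (Nat.Prime.even_iff hprime).1 (Nat.even_pow.1 hK).1
    rwa [this] at hp
  constructor
  · intro e he he0 m s hs
    refine (Pool.Agent.H524.FC.normal he he0 m s hs).congr fun N => ?_
    congr 2
    rw [← Set.ncard_coe_finset]
    congr 1
    ext n
    simp only [Finset.coe_filter, Finset.mem_range, Set.mem_setOf_eq]
    exact Iff.rfl
  · intro m a b ha hab Q r hQ s hs
    refine (Pool.Agent.H524.FC.forms_freq m a b ha hab hQ r s hs).congr fun n => ?_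
    congr 1
    rw [← Finset.sum_filter, Finset.sum_const, nsmul_eq_mul, mul_one, ← Set.ncard_coe_finset]
    congr 2
    ext f
    simp only [Finset.coe_filter, Pool.Agent.H694.Typ.mem_Mn, Set.mem_setOf_eq]
    constructor
    · rintro ⟨⟨h1, h2⟩, h3, h4⟩
      exact ⟨h1, h2, h3, h4⟩
    · rintro ⟨h1, h2, h3, h4⟩
      exact ⟨⟨h1, h2⟩, h3, h4⟩

end Pool.Agent.Results.MP_4fffd4_nt.NormalEvenChar
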