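import Pool.Agent.H569.SP11

/-!
# All sign patterns of the Liouville function on rows of four points, for one and the same distance

Let `H` be any set of at most four shifts and `Φ` any finite set of vectors in `ℕ^r`, `r ≥ 1`. For a
positive proportion of the `y` in `[1, N]^r`, for every large `N`, all `2^(|Φ| |H|)` sign patterns of
the Liouville function occur on the configuration `n + φ · y + h`, `φ ∈ Φ`, `h ∈ H`, each of them with
positive proportion of the `n` in `[1, N]`. For `r = 1`, `Φ = {0, ..., k-1}` and `H = {0, 1, 2, 3}`: for a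
positive proportion of the distances `y` the windows of the Liouville function shatter the union of the
`k` blocks `i y, i y + 1, i y + 2, i y + 3`, `i < k`.

The proof. Over `𝔽₂` the polynomial `∑ X^h` has a multiple `X^s + X^(s+e)`. For most `y` (second moments
over `y`, by the library's theorem for two point rows in the doubled system with the variables `n, n', y`)
the products of two values at distance `e` take all sign patterns on a large box of rows; so by
Sauer-Shelah and the multidimensional theorem of Szemeredi the products over `H` take all sign patterns on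
a homothetic copy of the configuration, that is for the distance `ρ y` with a bounded `ρ`. For most of the
`ρ y` all the correlations are small in which some row has one, two or three factors, so two sign patterns
with the same products over the rows are equally frequent.
-/

set_option autoImplicit false

namespace Pool.Agent.Results.MP_4fffd4_nt.RowsOfFour

open Finset

/-- The Liouville function of `|m|`, with value `1` at `m = 0`. -/
noncomputable def liou (m : ℤ) : ℝ := (-1) ^ ArithmeticFunction.cardFactors m.natAbs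

open Classical in
/-- The integers `n` in `[1, N]` with `λ(a (n + φ · y + h) + b) = σ φ h` for all `φ ∈ Φ`, `h ∈ H`. -/
noncomputable def occ (a : ℕ) (b : ℤ) (H : Finset ℕ) {r : ℕ} (Φ : Finset (Fin r → ℕ)) (N : ℕ)
    (y : Fin r → ℕ) (σ : (Fin r → ℕ) → ℕ → ℝ) : Finset ℕ :=
  (Icc 1 N).filter
    (fun n => ∀ φ ∈ Φ, ∀ h ∈ H, liou ((a : ℤ) * ((n + ∑ t, φ t * y t + h : ℕ) : ℤ) + b) = σ φ h)

/-- For every `a ≥ 1`, every integer `b`, every set `H` of at most four shifts, every `r ≥ 1` and every
finite set `Φ` of vectors in `ℕ^r` there are `c > 0` and `N₀` such that for all `N ≥ N₀` there is a set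
`Y` of at least `c N^r` vectors `y` in `[1, N]^r` such that for every `y` in `Y` all sign patterns `σ`
on `Φ × H` occur for at least `c N` of the `n ≤ N`. -/
theorem result (a : ℕ) (ha : 1 ≤ a) (b : ℤ) (H : Finset ℕ) (hH : H.card ≤ 4) (r : ℕ) (hr : 1 ≤ r)
    (Φ : Finset (Fin r → ℕ)) : ∃ c : ℝ, 0 < c ∧ ∃ N₀ : ℕ, ∀ N : ℕ, N₀ ≤ N →
      ∃ Y : Finset (Fin r → ℕ), (∀ y ∈ Y, ∀ t, 1 ≤ y t ∧ y t ≤ N) ∧
        c * (N : ℝ) ^ r ≤ (Y.card : ℝ) ∧
        ∀ y ∈ Y, ∀ σ : (Fin r → ℕ) → ℕ → ℝ, (∀ φ ∈ Φ, ∀ h ∈ H, σ φ h = 1 ∨ σ φ h = -1) →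
          c * (N : ℝ) ≤ ((occ a b H Φ N y σ).card : ℝ) := by
  classical
  obtain ⟨H', hHH, hH'⟩ := Infinite.exists_superset_card_eq H 4 hH
  obtain ⟨c, hc, N₀, h⟩ := Pool.Agent.H569.SP.rows_full a ha b H' hH' r hr Φ
  refine ⟨c, hc, N₀, fun N hN => ?_⟩
  obtain ⟨Y, hY1, hY2, hY3⟩ := h N hN
  refine ⟨Y, hY1, hY2, fun y hy σ hσ => ?_⟩
  have h1 := hY3 y hy (fun φ h => if σ φ h = 1 then 0 else 1)
  refine h1.trans ?_
  have h2 : (Icc 1 N).filter (fun n => ∀ φ ∈ Φ, ∀ h ∈ H',
      Pool.Agent.H569.SP.gg a b (n + ∑ t, φ t * y t + h) = if σ φ h = 1 then 0 else 1) ⊆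
      occ a b H Φ N y σ := by
    intro n hn
    unfold occ
    rw [mem_filter] at hn
    rw [mem_filter]
    refine ⟨hn.1, fun φ hφ h hh => ?_⟩
    have h3 := hn.2 φ hφ h (hHH hh)
    have h4 : liou ((a : ℤ) * ((n + ∑ t, φ t * y t + h : ℕ) : ℤ) + b) = Pool.Agent.H569.SP.sg
        (Pool.Agent.H569.SP.gg a b (n + ∑ t, φ t * y t + h)) :=
      Pool.Agent.H569.SP.lam_gg a b _
    rw [h4, h3]
    rcases hσ φ hφ h hh with h5 | h5
    · rw [if_pos h5, h5, Pool.Agent.H569.SP.sg_zero]
    · have h6 : σ φ h ≠ 1 := by rw [h5]; norm_num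
      rw [if_neg h6, h5, Pool.Agent.H569.SP.sg_one]
  exact_mod_cast card_le_card h2

end Pool.Agent.Results.MP_4fffd4_nt.RowsOfFour
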